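import Mathlib
import Pool.Agent.Results.MP_fa7d23_ag.NefNotB

/-!
Bridge from the starting file `Results/MP_fa7d23_ag/NefNotB.lean` (fifteen points on a rational
quartic, twelve of them on a cubic) to the wording of the frozen statement `S00566`.
-/

set_option autoImplicit false

open MvPolynomial

namespace Run7.h590.NefBridge

open Pool.Agent.Results.MP_fa7d23_ag.NefNotB

variable {k : Type*} [Field k]

lemma pointIdeal_ne_top {q : Fin 3 → k} : pointIdeal q ≠ ⊤ := by
  have h2 : pointIdeal q ≤ RingHom.ker (eval q) := by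
    rw [pointIdeal, Ideal.span_le]
    rintro _ ⟨⟨i, j⟩, rfl⟩
    rw [SetLike.mem_coe, RingHom.mem_ker]
    simp
    ring
  intro h
  rw [h] at h2
  have := h2 (Submodule.mem_top (x := (1 : MvPolynomial (Fin 3) k)))
  rw [RingHom.mem_ker, map_one] at this
  exact one_ne_zero this

/-- The exact multiplicity exists. -/
lemma exists_exact {q : Fin 3 → k} {g : MvPolynomial (Fin 3) k} (hg : g ≠ 0) :
    ∃ c : ℕ, g ∈ pointIdeal q ^ c ∧ g ∉ pointIdeal q ^ (c + 1) := by
  classical
  have hbot := Ideal.iInf_pow_eq_bot_of_isDomain (pointIdeal q) (pointIdeal_ne_top (q := q))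
  have hex : ∃ c : ℕ, g ∉ pointIdeal q ^ (c + 1) := by
    by_contra hcon
    push Not at hcon
    apply hg
    have : g ∈ (⨅ i : ℕ, pointIdeal q ^ i) := by
      rw [Submodule.mem_iInf]
      intro i
      exact Ideal.pow_le_pow_right (Nat.le_succ i) (hcon i)
    rw [hbot] at this
    simpa using this
  refine ⟨Nat.find hex, ?_, Nat.find_spec hex⟩
  rcases Nat.eq_zero_or_pos (Nat.find hex) with h0 | h0
  · rw [h0]; simp
  · have := Nat.find_min hex (m := Nat.find hex - 1) (by omega)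
    push Not at this
    rwa [show Nat.find hex - 1 + 1 = Nat.find hex by omega] at this

lemma effective_of {r : ℕ} {p : Fin r → Fin 3 → k} {D : Cls r} {F : MvPolynomial (Fin 3) k}
    (hF : F ≠ 0) (h0 : 0 ≤ D.1) (hh : F.IsHomogeneous D.1.toNat)
    (hm : ∀ i, F ∈ (pointIdeal (p i)) ^ (D.2 i).toNat) : Effective p D := by
  intro hb
  apply hF
  have : F ∈ H0 p D := (mem_H0 p D F hF).2 ⟨h0, hh, hm⟩
  rw [hb] at this
  simpa using this

theorem contra (k : Type) [Field k] [IsAlgClosed k]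
    (H : ∀ (p : Fin 15 → Fin 3 → k),
    (∀ i, p i ≠ 0) →
    (∀ i j, i ≠ j → ∀ c : k, p i ≠ c • p j) →
    (∃ f : MvPolynomial (Fin 3) k, f ≠ 0 ∧ f.IsHomogeneous 4 ∧
        ∀ i, f ∈ (Ideal.span (Set.range fun ab : Fin 3 × Fin 3 =>
            MvPolynomial.C (p i ab.1) * MvPolynomial.X ab.2
              - MvPolynomial.C (p i ab.2) * MvPolynomial.X ab.1) :
              Ideal (MvPolynomial (Fin 3) k)) ^ ((fun _ => 1 : Fin 15 → ℕ) i)) →
    (∀ (e : ℕ) (g : MvPolynomial (Fin 3) k), g.IsHomogeneous e → Irreducible g →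
        ∀ μ : Fin 15 → ℕ,
          (∀ i, g ∈ (Ideal.span (Set.range fun ab : Fin 3 × Fin 3 =>
            MvPolynomial.C (p i ab.1) * MvPolynomial.X ab.2
              - MvPolynomial.C (p i ab.2) * MvPolynomial.X ab.1) :
              Ideal (MvPolynomial (Fin 3) k)) ^ μ i) →
          ∑ i, (fun _ => 1 : Fin 15 → ℕ) i * μ i ≤ 4 * e) →
    (¬ ∃ (e : ℕ) (γ : Fin 15 → ℤ), (e ≠ 0 ∨ γ ≠ 0) ∧
        (∃ f : MvPolynomial (Fin 3) k, f ≠ 0 ∧ f.IsHomogeneous e ∧
          ∀ i, f ∈ (Ideal.span (Set.range fun ab : Fin 3 × Fin 3 =>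
            MvPolynomial.C (p i ab.1) * MvPolynomial.X ab.2
              - MvPolynomial.C (p i ab.2) * MvPolynomial.X ab.1) :
              Ideal (MvPolynomial (Fin 3) k)) ^ (γ i).toNat) ∧
        e ≤ 4 ∧
        (∃ f : MvPolynomial (Fin 3) k, f ≠ 0 ∧ f.IsHomogeneous (4 - e) ∧
          ∀ i, f ∈ (Ideal.span (Set.range fun ab : Fin 3 × Fin 3 =>
            MvPolynomial.C (p i ab.1) * MvPolynomial.X ab.2
              - MvPolynomial.C (p i ab.2) * MvPolynomial.X ab.1) :
              Ideal (MvPolynomial (Fin 3) k)) ^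
                ((((fun _ => 1 : Fin 15 → ℕ) i : ℕ) : ℤ) - γ i).toNat) ∧
        (e : ℤ) ^ 2 - ∑ i, (γ i) ^ 2 - 3 * (e : ℤ) + ∑ i, γ i > -2 ∧
        ((4 : ℕ) : ℤ) * (e : ℤ) - ∑ i, (((fun _ => 1 : Fin 15 → ℕ) i : ℕ) : ℤ) * γ i = 0) →
    ∃ m : ℕ, 1 ≤ m ∧
      2 * (Module.finrank k
        ↥(MvPolynomial.homogeneousSubmodule (Fin 3) k (m * 4) ⊓
          ⨅ i, Submodule.restrictScalars k
            ((Ideal.span (Set.range fun ab : Fin 3 × Fin 3 =>
              MvPolynomial.C (p i ab.1) * MvPolynomial.X ab.2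
                - MvPolynomial.C (p i ab.2) * MvPolynomial.X ab.1) :
                Ideal (MvPolynomial (Fin 3) k)) ^ (m * (fun _ => 1 : Fin 15 → ℕ) i))) : ℤ)
        = 2 + ((m * 4 : ℕ) : ℤ) ^ 2 - ∑ i, ((m * (fun _ => 1 : Fin 15 → ℕ) i : ℕ) : ℤ) ^ 2
            + 3 * ((m * 4 : ℕ) : ℤ) - ∑ i, ((m * (fun _ => 1 : Fin 15 → ℕ) i : ℕ) : ℤ)) :
    False := by
  obtain ⟨p, hd, heff, hnef, hnb, hh1⟩ := result k
  refine (?_ : _ → False) (H p hd.1 hd.2 ?_ ?_ ?_)
  · rintro ⟨m, hm, heq⟩
    -- the Riemann-Roch value is never attained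
    have h1 := hh1 m hm
    have hsm : (m • ((4, fun _ => 1) : Cls 15)) = (((m * 4 : ℕ) : ℤ), fun _ => ((m * 1 : ℕ) : ℤ)) := by
      ext i
      · simp
      · simp
    rw [hsm, h1_eq_superabundance p (m * 4) (fun _ => m * 1), H0_coe] at h1
    have k1 := key_choose (m * 4 + 1)
    have k2 := key_choose (m * 1)
    simp only [Finset.sum_const, Finset.card_univ, Fintype.card_fin, nsmul_eq_mul] at h1 heq
    have e3 : (Module.finrank k
        ↥(MvPolynomial.homogeneousSubmodule (Fin 3) k (m * 4) ⊓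
          ⨅ i, Submodule.restrictScalars k
            ((Ideal.span (Set.range fun ab : Fin 3 × Fin 3 =>
              MvPolynomial.C (p i ab.1) * MvPolynomial.X ab.2
                - MvPolynomial.C (p i ab.2) * MvPolynomial.X ab.1) :
                Ideal (MvPolynomial (Fin 3) k)) ^ (m * 1))) : ℤ) =
        (Module.finrank k
          ↥(homogeneousSubmodule (Fin 3) k (m * 4) ⊓
            ⨅ i, ((pointIdeal (p i)) ^ (m * 1)).restrictScalars k) : ℤ) := rfl
    rw [e3] at heq
    generalize (Module.finrank k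
          ↥(homogeneousSubmodule (Fin 3) k (m * 4) ⊓
            ⨅ i, ((pointIdeal (p i)) ^ (m * 1)).restrictScalars k) : ℤ) = A at *
    generalize (((m * 4 + 1 + 1).choose 2 : ℕ) : ℤ) = B at *
    generalize (((m * 1 + 1).choose 2 : ℕ) : ℤ) = C' at *
    push_cast at *
    nlinarith
  · -- effective
    by_contra hcon
    apply heff
    rw [Submodule.eq_bot_iff]
    intro F hF
    by_contra hF0
    apply hcon
    have := (mem_H0 p (4, fun _ => 1) F hF0).1 hF
    exact ⟨F, hF0, this.2.1, fun i => this.2.2 i⟩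
  · -- nef
    intro e g hg hirr μ hμ
    have hg0 : g ≠ 0 := hirr.ne_zero
    choose c hc1 hc2 using fun i => exists_exact (q := p i) hg0
    have hle : ∀ i, μ i ≤ c i := by
      intro i
      by_contra hlt
      push Not at hlt
      exact hc2 i (Ideal.pow_le_pow_right hlt (hμ i))
    have h := hnef.2 e g c hg hirr fun i => ⟨hc1 i, hc2 i⟩
    simp only [inter, one_mul] at h ⊢
    have hs : ∑ i, μ i ≤ ∑ i, c i := Finset.sum_le_sum fun i _ => hle i
    have : ((∑ i, c i : ℕ) : ℤ) ≤ 4 * e := by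
      push_cast
      linarith
    have h3 : ∑ i, c i ≤ 4 * e := by exact_mod_cast this
    exact hs.trans h3
  · -- condition (B) fails
    rintro ⟨e, γ, hne, ⟨f, hf0, hfh, hfm⟩, he4, ⟨f', hf0', hfh', hfm'⟩, hpa, hint⟩
    apply hnb
    refine ⟨((e : ℤ), γ), ?_, ?_, ?_, ?_, ?_⟩
    · intro h
      have h1 : (e : ℤ) = 0 := congrArg Prod.fst h
      have h2 : γ = 0 := congrArg Prod.snd h
      rcases hne with h | h
      · exact h (by exact_mod_cast h1)
      · exact h h2
    · exact effective_of hf0 (by simp) (by simpa using hfh) hfm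
    · refine effective_of hf0' (by simp; omega) ?_ ?_
      · have : ((4 : ℤ) - (e : ℤ)).toNat = 4 - e := by omega
        simpa [this] using hfh'
      · intro i
        exact hfm' i
    · have hev : (2 : ℤ) ∣ (e : ℤ) ^ 2 - ∑ i, (γ i) ^ 2 - 3 * (e : ℤ) + ∑ i, γ i := by
        have h1 : (e : ℤ) ^ 2 - ∑ i, (γ i) ^ 2 - 3 * (e : ℤ) + ∑ i, γ i =
            (e : ℤ) * (e + 1) - 4 * e - ∑ i, (γ i * (γ i + 1)) + 2 * ∑ i, γ i := by
          rw [show ∑ i, (γ i * (γ i + 1)) = ∑ i, (γ i) ^ 2 + ∑ i, γ i by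
            rw [← Finset.sum_add_distrib]; exact Finset.sum_congr rfl fun i _ => by ring]
          ring
        rw [h1]
        refine dvd_add (dvd_sub (dvd_sub (Int.even_mul_succ_self _).two_dvd ?_) ?_)
          (dvd_mul_right _ _)
        · exact ⟨2 * e, by ring⟩
        · exact Finset.dvd_sum fun i _ => (Int.even_mul_succ_self _).two_dvd
      have h2 : inter ((e : ℤ), γ) ((e : ℤ), γ) + inter (canon 15) ((e : ℤ), γ) =
          (e : ℤ) ^ 2 - ∑ i, (γ i) ^ 2 - 3 * (e : ℤ) + ∑ i, γ i := by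
        simp only [inter, canon]
        rw [show ∑ i, γ i * γ i = ∑ i, (γ i) ^ 2 from
          Finset.sum_congr rfl fun i _ => by ring]
        rw [show ∑ i, (-1 : ℤ) * γ i = - ∑ i, γ i by
          rw [← Finset.sum_neg_distrib]; exact Finset.sum_congr rfl fun i _ => by ring]
        ring
      unfold pa
      rw [h2]
      omega
    · simp only [inter]
      simpa using hint

end Run7.h590.NefBridge
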